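import Mathlib

/-!
# The unit of a rigid abelian monoidal category
-/

open CategoryTheory Limits MonoidalCategory

namespace Pool.Agent.R709.DB

universe v u w

variable {C : Type u} [Category.{v} C] [MonoidalCategory C] [RigidCategory C]

theorem mono_whiskerLeft (X : C) {A B : C} (f : A ⟶ B) [Mono f] : Mono (X ◁ f) := by
  have : (tensorLeft X).IsRightAdjoint := (tensorLeftAdjunction X (Xᘁ)).isRightAdjoint
  exact (tensorLeft X).map_mono f

theorem epi_whiskerLeft (X : C) {A B : C} (f : A ⟶ B) [Epi f] : Epi (X ◁ f) := by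
  have : (tensorLeft X).IsLeftAdjoint := (tensorLeftAdjunction (ᘁX) X).isLeftAdjoint
  exact (tensorLeft X).map_epi f

theorem mono_whiskerRight (X : C) {A B : C} (f : A ⟶ B) [Mono f] : Mono (f ▷ X) := by
  have : (tensorRight X).IsRightAdjoint := (tensorRightAdjunction (ᘁX) X).isRightAdjoint
  exact (tensorRight X).map_mono f

theorem epi_whiskerRight (X : C) {A B : C} (f : A ⟶ B) [Epi f] : Epi (f ▷ X) := by
  have : (tensorRight X).IsLeftAdjoint := (tensorRightAdjunction X (Xᘁ)).isLeftAdjoint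
  exact (tensorRight X).map_epi f

theorem mono_tensorHom {A B A' B' : C} (f : A ⟶ B) (g : A' ⟶ B') [Mono f] [Mono g] :
    Mono (f ⊗ₘ g) := by
  have := mono_whiskerRight A' f
  have := mono_whiskerLeft B g
  rw [MonoidalCategory.tensorHom_def]
  infer_instance

theorem epi_tensorHom {A B A' B' : C} (f : A ⟶ B) (g : A' ⟶ B') [Epi f] [Epi g] :
    Epi (f ⊗ₘ g) := by
  have := epi_whiskerRight A' f
  have := epi_whiskerLeft B g
  rw [MonoidalCategory.tensorHom_def]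
  infer_instance

variable [Abelian C] [MonoidalPreadditive C]

/-- The dual of a monomorphism into the unit. -/
def dualMap {S : C} (s : S ⟶ 𝟙_ C) : 𝟙_ C ⟶ Sᘁ :=
  η_ S (Sᘁ) ≫ s ▷ (Sᘁ) ≫ (λ_ (Sᘁ)).hom

/-- The dual of a monomorphism is an epimorphism. -/
theorem epi_dualMap {S : C} (s : S ⟶ 𝟙_ C) [Mono s] : Epi (dualMap s) := by
  rw [Preadditive.epi_iff_cancel_zero]
  intro T a ha
  have hm := mono_whiskerRight T s
  have h1 : (η_ S (Sᘁ) ≫ S ◁ a) ≫ s ▷ T = 0 := by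
    have h0 : ((η_ S (Sᘁ) ≫ S ◁ a) ≫ s ▷ T) ≫ (λ_ T).hom = 0 := by
      have h6 : 𝟙_ C ◁ a ≫ (λ_ T).hom = (λ_ (Sᘁ)).hom ≫ a := leftUnitor_naturality a
      have h7 : dualMap s ≫ a = η_ S (Sᘁ) ≫ s ▷ (Sᘁ) ≫ (λ_ (Sᘁ)).hom ≫ a := by
        simp [dualMap]
      have h8 : S ◁ a ≫ s ▷ T = s ▷ (Sᘁ) ≫ 𝟙_ C ◁ a := whisker_exchange _ _
      rw [ha, ← h6, ← reassoc_of% h8] at h7
      rw [Category.assoc, Category.assoc, ← h7]
    rw [← cancel_mono (λ_ T).hom, h0, zero_comp]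
  have h2 : η_ S (Sᘁ) ≫ S ◁ a = 0 := by
    rw [← cancel_mono (s ▷ T), h1, zero_comp]
  have h3 := tensorLeftHomEquiv_symm_coevaluation_comp_whiskerLeft (Y := S) (Y' := Sᘁ) a
  rw [h2] at h3
  have h4 : (tensorLeftHomEquiv (𝟙_ C) S (Sᘁ) T).symm 0 = 0 := by
    simp [tensorLeftHomEquiv]
  rw [h4] at h3
  have h5 : (ρ_ (Sᘁ)).inv ≫ (ρ_ (Sᘁ)).hom ≫ a = 0 := by rw [← h3, comp_zero]
  simpa using h5

theorem coev_ne_zero (S : C) [Simple S] : η_ S (Sᘁ) ≠ 0 := by
  intro h1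
  have h2 := ExactPairing.evaluation_coevaluation S (Sᘁ)
  rw [h1, MonoidalPreadditive.zero_whiskerRight, zero_comp] at h2
  have h3 : 𝟙 S = 0 := by
    have h4 : (λ_ S).inv ≫ ((λ_ S).hom ≫ (ρ_ S).inv) ≫ (ρ_ S).hom = 0 := by
      rw [← h2, zero_comp, comp_zero]
    simpa using h4
  exact id_nonzero S h3

/-- If every endomorphism of the unit is zero or an isomorphism and every object is artinian,
then every nonzero morphism out of the unit is a monomorphism. -/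
theorem mono_of_ne_zero (hend : ∀ c : 𝟙_ C ⟶ 𝟙_ C, c ≠ 0 → IsIso c)
    (hart : ∀ X : C, IsArtinianObject X) {M : C} (u : 𝟙_ C ⟶ M) (hu : u ≠ 0) : Mono u := by
  rw [Preadditive.mono_iff_cancel_zero]
  by_contra hcon
  push Not at hcon
  have hK : ¬ IsZero (kernel u) := by
    intro hz
    obtain ⟨P, g, hg, hg'⟩ := hcon
    apply hg'
    rw [← kernel.lift_ι u g hg, hz.eq_of_tgt (kernel.lift u g hg) 0, zero_comp]
  have := hart (kernel u)
  obtain ⟨S, hS⟩ := exists_simple_subobject hK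
  let s : (S : C) ⟶ 𝟙_ C := S.arrow ≫ kernel.ι u
  have hs : Mono s := mono_comp _ _
  have hsu : s ≫ u = 0 := by simp [s]
  have hcoev := coev_ne_zero (S : C)
  have hne : ¬ IsZero ((S : C) ⊗ (S : C)ᘁ) := fun hz => hcoev (hz.eq_of_tgt _ _)
  let q : (S : C) ⟶ (S : C) ⊗ (S : C)ᘁ := (ρ_ (S : C)).inv ≫ (S : C) ◁ dualMap s
  have hd := epi_dualMap s
  have hw := epi_whiskerLeft (S : C) (dualMap s)
  have hq : Epi q := epi_comp _ _
  have hq0 : q ≠ 0 := by
    intro h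
    apply hne
    rw [IsZero.iff_id_eq_zero, ← cancel_epi q, h, zero_comp, zero_comp]
  have hiso : IsIso q := isIso_of_epi_of_nonzero hq0
  let c : 𝟙_ C ⟶ 𝟙_ C := η_ (S : C) ((S : C)ᘁ) ≫ inv q ≫ s
  have hc : c ≠ 0 := by
    intro h
    apply hcoev
    have h1 : (η_ (S : C) ((S : C)ᘁ) ≫ inv q) ≫ s = 0 := by simpa [c] using h
    have h2 : η_ (S : C) ((S : C)ᘁ) ≫ inv q = 0 := by
      rw [← cancel_mono s, h1, zero_comp]
    rw [← cancel_mono (inv q), h2, zero_comp]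
  have hci := hend c hc
  apply hu
  have h1 : c ≫ u = 0 := by simp [c, hsu]
  rw [← cancel_epi c, h1, comp_zero]

end Pool.Agent.R709.DB
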