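import Pool.Agent.R709.DB.Defs
import Pool.Agent.R709.DB.Unit

/-!
# Chain level computations
-/

open CategoryTheory Limits MonoidalCategory

namespace Pool.Agent.R709.DB

universe v u w w'

variable {C : Type u} [Category.{v} C] [Abelian C]

section

variable [HasDerivedCategory.{w'} C]

/-- If a chain map is zero in the derived category, it is zero from cycles to opcycles. -/
theorem comp_eq_zero_of_Q_eq_zero {K L : CochainComplex C ℤ} (γ : K ⟶ L)
    (hγ : DerivedCategory.Q.map γ = 0) {A E : C} (k : A ⟶ K.X 0) (hk : k ≫ K.d 0 1 = 0)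
    (e : L.X 0 ⟶ E) (he : L.d (-1) 0 ≫ e = 0) : k ≫ γ.f 0 ≫ e = 0 := by
  have h1 : HomologicalComplex.homologyMap γ 0 = 0 := by
    have hn := (DerivedCategory.homologyFunctorFactors C 0).hom.naturality γ
    simp only [Functor.comp_map, hγ, Functor.map_zero, zero_comp] at hn
    change (HomologicalComplex.homologyFunctor C (ComplexShape.up ℤ) 0).map γ = 0
    rw [← cancel_epi ((DerivedCategory.homologyFunctorFactors C 0).hom.app K), ← hn, comp_zero]
  have hk' : k = K.liftCycles k 1 (by simp) hk ≫ K.iCycles 0 := by simp
  have he' : e = L.pOpcycles 0 ≫ L.descOpcycles e (-1) (by simp) he := by simp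
  have h2 : K.homologyπ 0 ≫ HomologicalComplex.homologyMap γ 0 ≫ L.homologyι 0 =
      K.iCycles 0 ≫ γ.f 0 ≫ L.pOpcycles 0 := by
    rw [HomologicalComplex.homologyπ_naturality_assoc, HomologicalComplex.homology_π_ι,
      HomologicalComplex.cyclesMap_i_assoc]
  rw [h1, zero_comp, comp_zero] at h2
  rw [hk', he', Category.assoc, ← reassoc_of% h2]
  simp

/-- A chain map out of a projective object in degree zero which vanishes into the opcycles is
zero in the derived category. -/
theorem Q_eq_zero_of_projective {P : C} [Projective P] {L : CochainComplex C ℤ}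
    (α : (HomologicalComplex.single C (ComplexShape.up ℤ) 0).obj P ⟶ L)
    (hα : α.f 0 ≫ L.pOpcycles 0 = 0) : DerivedCategory.Q.map α = 0 := by
  let S : ShortComplex C := ShortComplex.mk (L.d (-1) 0) (L.pOpcycles 0) (by simp)
  have hS : S.Exact := S.exact_of_g_is_cokernel (L.opcyclesIsCokernel (-1) 0 (by simp))
  have hP : Projective (((HomologicalComplex.single C (ComplexShape.up ℤ) 0).obj P).X 0) :=
    Projective.of_iso (HomologicalComplex.singleObjXSelf (ComplexShape.up ℤ) 0 P).symm
      inferInstance
  let h := hS.liftFromProjective (α.f 0) hα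
  have hh : h ≫ L.d (-1) 0 = α.f 0 := hS.liftFromProjective_comp (α.f 0) hα
  let hom : ∀ i j : ℤ, ((HomologicalComplex.single C (ComplexShape.up ℤ) 0).obj P).X i ⟶ L.X j :=
    fun i j => if hi : i = 0 then (if hj : -1 = j then
      (HomologicalComplex.XIsoOfEq _ hi).hom ≫ h ≫ (HomologicalComplex.XIsoOfEq L hj).hom
      else 0) else 0
  have h0 : hom 0 (-1) = h := by
    simp only [hom, dif_pos rfl, HomologicalComplex.XIsoOfEq_rfl, Iso.refl_hom,
      Category.id_comp]
    exact Category.comp_id h
  have hα' : α = Homotopy.nullHomotopicMap hom := by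
    apply HomologicalComplex.from_single_hom_ext
    rw [Homotopy.nullHomotopicMap_f (k₂ := -1) (k₁ := 0) (k₀ := 1) (by simp) (by simp), h0, hh]
    simp
  rw [hα']
  have hom0 : Homotopy (Homotopy.nullHomotopicMap hom) 0 := by
    apply Homotopy.nullHomotopy
    intro i j hij
    simp only [hom]
    split_ifs with hi hj
    · exfalso
      apply hij
      subst hi
      subst hj
      simp
    · rfl
    · rfl
  rw [DerivedCategory.Q_map_eq_of_homotopy C hom0, Functor.map_zero]

/-- Morphisms in the derived category out of a projective object are chain maps. -/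
theorem exists_rep {P : C} [Projective P] {L : CochainComplex C ℤ}
    (f : DerivedCategory.Q.obj ((HomologicalComplex.single C (ComplexShape.up ℤ) 0).obj P) ⟶
      DerivedCategory.Q.obj L) :
    ∃ α : (HomologicalComplex.single C (ComplexShape.up ℤ) 0).obj P ⟶ L,
      DerivedCategory.Q.map α = f := by
  let K := (HomologicalComplex.single C (ComplexShape.up ℤ) 0).obj P
  have hpr : ∀ n : ℤ, Projective (K.X n) := by
    intro n
    by_cases hn : n = 0
    · subst hn
      exact Projective.of_iso
        (HomologicalComplex.singleObjXSelf (ComplexShape.up ℤ) 0 P).symm inferInstance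
    · exact (HomologicalComplex.isZero_single_obj_X (ComplexShape.up ℤ) 0 P n hn).projective
  have hK : CochainComplex.IsKProjective K := CochainComplex.isKProjective_of_projective K 0
  obtain ⟨g, hg⟩ := (CochainComplex.IsKProjective.Qh_map_bijective K
    ((HomotopyCategory.quotient _ _).obj L)).surjective
    ((DerivedCategory.quotientCompQhIso C).hom.app K ≫ f ≫
      (DerivedCategory.quotientCompQhIso C).inv.app L)
  obtain ⟨α, rfl⟩ := (HomotopyCategory.quotient C (ComplexShape.up ℤ)).map_surjective g
  refine ⟨α, ?_⟩
  have h1 := DerivedCategory.quotientCompQhIso_hom_naturality α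
  rw [hg] at h1
  simp only [Category.assoc, Iso.inv_hom_id_app, Category.comp_id] at h1
  rw [← cancel_epi ((DerivedCategory.quotientCompQhIso C).hom.app K)]
  exact (h1.symm.trans (by simp))

end

end Pool.Agent.R709.DB
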