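import Mathlib

/-!
# Bounded derived categories of finite tensor categories

* `IsFiniteTensorCategory k C` : the finiteness axioms of a finite tensor category over `k`
  (to be used for a `k`-linear abelian rigid monoidal category with bilinear tensor product).
* `Chb C` : the category of bounded complexes in `C`, with the tensor product `tensorObj`,
  `tensorMap` (the total complex of the double complex `Kⁱ ⊗ Lʲ`).
* `Db C` : the bounded derived category of `C`, the full subcategory of the derived category of
  `C` on the bounded complexes; `Qb : Chb C ⥤ Db C` is the canonical functor.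
* `DerivedTensor C` : the tensor product of `Db C`, as a bifunctor `Db C ⥤ Db C ⥤ Db C` which is
  given on bounded complexes by their tensor product.
* `IsNilpotentOn T f Z` : the morphism `f` is tensor-nilpotent on `Z`.
-/

open CategoryTheory Limits MonoidalCategory

namespace Pool.Agent.R709.DB

universe v u w w'

section Coproducts

variable {C : Type u} [Category.{v} C] [HasZeroMorphisms C] [HasZeroObject C]
  [HasFiniteCoproducts C]

omit [HasZeroObject C] in
/-- A family all but finitely many of whose members are zero has a coproduct. -/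
theorem hasCoproduct_of_finite {ι : Type*} (f : ι → C)
    (h : {i | ¬ IsZero (f i)}.Finite) : HasCoproduct f := by
  classical
  have := h.fintype
  let S : Type _ := {i | ¬ IsZero (f i)}
  let F : S → C := fun i => f i.1
  let c : Cofan f := Cofan.mk (∐ F)
    (fun i => if hi : ¬ IsZero (f i) then Limits.Sigma.ι F ⟨i, hi⟩ else 0)
  refine ⟨⟨c, Cofan.IsColimit.mk c (fun s => Limits.Sigma.desc (f := F) fun i => s.inj i.1)
    ?_ ?_⟩⟩
  · intro s i
    by_cases hi : ¬ IsZero (f i)
    · simp only [c, cofan_mk_inj, dif_pos hi]
      exact Limits.Sigma.ι_desc _ _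
    · rw [not_not] at hi
      exact hi.eq_of_src _ _
  · intro s m hm
    refine Limits.Sigma.hom_ext (f := F) _ _ ?_
    intro i
    have h1 := hm i.1
    simp only [c, cofan_mk_inj] at h1
    have h2 : ¬ IsZero (f i.1) := i.2
    rw [dif_pos h2] at h1
    rw [Limits.Sigma.ι_desc]
    exact h1

end Coproducts

section

/-- The finiteness axioms of a finite tensor category over the field `k`. -/
structure IsFiniteTensorCategory (k : Type w) [Field k] (C : Type u) [Category.{v} C]
    [Abelian C] [Linear k C] [MonoidalCategory C] : Prop where
  /-- Hom spaces are finite-dimensional -/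
  finite_hom : ∀ X Y : C, FiniteDimensional k (X ⟶ Y)
  /-- every object has finite length -/
  artinian : ∀ X : C, IsArtinianObject X
  /-- every object has finite length -/
  noetherian : ∀ X : C, IsNoetherianObject X
  /-- there are finitely many simple objects up to isomorphism -/
  finite_simples : ∃ (n : ℕ) (S : Fin n → C), ∀ X : C, Simple X → ∃ i, Nonempty (X ≅ S i)
  /-- there are enough projectives -/
  enoughProjectives : EnoughProjectives C
  /-- the endomorphism ring of the unit is `k` -/
  end_unit : Function.Bijective (fun c : k => c • 𝟙 (𝟙_ C))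

variable (C : Type u) [Category.{v} C] [Abelian C]

/-- Bounded complexes. -/
def IsBdd : ObjectProperty (CochainComplex C ℤ) :=
  fun K => ∃ a b : ℤ, K.IsStrictlyGE a ∧ K.IsStrictlyLE b

/-- The category of bounded complexes in `C`. -/
abbrev Chb := (IsBdd C).FullSubcategory

variable {C}

/-- The object `A` of `C` as a complex concentrated in degree zero. -/
noncomputable abbrev single (A : C) : Chb C :=
  ⟨(HomologicalComplex.single C (ComplexShape.up ℤ) 0).obj A, 0, 0, inferInstance, inferInstance⟩

section Tensor

variable [MonoidalCategory C] [MonoidalPreadditive C]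

/-- The tensor product of an object of `C` with a zero object is a zero object. -/
theorem isZero_tensor_left {A : C} (B : C) (h : IsZero A) : IsZero (A ⊗ B) := by
  rw [IsZero.iff_id_eq_zero] at h ⊢
  rw [← id_whiskerRight, h, MonoidalPreadditive.zero_whiskerRight]

instance hasTensor (K L : Chb C) : HomologicalComplex.HasTensor K.obj L.obj := by
  obtain ⟨a, b, ha, hb⟩ := K.property
  intro j
  apply hasCoproduct_of_finite
  refine Set.Finite.subset (s := Set.range (fun i : Set.Icc a b =>
    (⟨(i.1, j - i.1), by
      change i.1 + (j - i.1) = j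
      ring⟩ : (ComplexShape.π (ComplexShape.up ℤ) (ComplexShape.up ℤ) (ComplexShape.up ℤ)) ⁻¹' {j})))
    (Set.finite_range _) ?_
  rintro ⟨⟨i₁, i₂⟩, hi⟩ hne
  have hi' : i₁ + i₂ = j := hi
  have h1 : a ≤ i₁ := by
    by_contra hlt
    apply hne
    exact isZero_tensor_left _ (K.obj.isZero_of_isStrictlyGE a i₁ (not_le.mp hlt))
  have h2 : i₁ ≤ b := by
    by_contra hlt
    apply hne
    exact isZero_tensor_left _ (K.obj.isZero_of_isStrictlyLE b i₁ (not_le.mp hlt))
  refine ⟨⟨i₁, h1, h2⟩, ?_⟩
  apply Subtype.ext
  change (i₁, j - i₁) = (i₁, i₂)
  rw [← hi']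
  simp

/-- The tensor product of two bounded complexes. -/
noncomputable def tensorObj (K L : Chb C) : CochainComplex C ℤ :=
  HomologicalComplex.tensorObj K.obj L.obj

/-- The tensor product of two morphisms of bounded complexes. -/
noncomputable def tensorMap {K K' L L' : Chb C} (f : K ⟶ K') (g : L ⟶ L') :
    tensorObj K L ⟶ tensorObj K' L' :=
  HomologicalComplex.tensorHom f.hom g.hom

end Tensor

section Derived

variable (C) [HasDerivedCategory.{w'} C]

/-- The objects of the derived category which are isomorphic to a bounded complex. -/
def IsDb : ObjectProperty (DerivedCategory C) :=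
  fun X => ∃ K : Chb C, Nonempty (X ≅ DerivedCategory.Q.obj K.obj)

/-- The bounded derived category of `C`. -/
abbrev Db := (IsDb C).FullSubcategory

variable {C} in
/-- The canonical functor from bounded complexes to the bounded derived category. -/
noncomputable def Qb : Chb C ⥤ Db C :=
  (IsDb C).lift ((IsBdd C).ι ⋙ DerivedCategory.Q) (fun K => ⟨K, ⟨Iso.refl _⟩⟩)

variable [MonoidalCategory C] [MonoidalPreadditive C]

/-- The tensor product of the bounded derived category of `C`: a bifunctor which is given on
bounded complexes by their tensor product, functorially in both variables. -/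
structure DerivedTensor where
  /-- the bifunctor -/
  T : Db C ⥤ Db C ⥤ Db C
  /-- the comparison with the tensor product of bounded complexes -/
  iso : ∀ K L : Chb C,
    ((T.obj (Qb.obj K)).obj (Qb.obj L)).obj ≅ DerivedCategory.Q.obj (tensorObj K L)
  /-- the comparison is natural -/
  natural : ∀ {K K' L L' : Chb C} (f : K ⟶ K') (g : L ⟶ L'),
    ((T.map (Qb.map f)).app (Qb.obj L) ≫ (T.obj (Qb.obj K')).map (Qb.map g)).hom ≫
      (iso K' L').hom = (iso K L).hom ≫ DerivedCategory.Q.map (tensorMap f g)

variable {C} (T : DerivedTensor C)

namespace DerivedTensor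

/-- The tensor product of two objects of the bounded derived category. -/
noncomputable abbrev obj (X Y : Db C) : Db C := (T.T.obj X).obj Y

/-- The tensor product of two morphisms of the bounded derived category. -/
noncomputable abbrev map {X X' Y Y' : Db C} (f : X ⟶ X') (g : Y ⟶ Y') : T.obj X Y ⟶ T.obj X' Y' :=
  (T.T.map f).app Y ≫ (T.T.obj X').map g

/-- The tensor power `X^{⊗ (n + 1)}`. -/
noncomputable def powObj (X : Db C) : ℕ → Db C
  | 0 => X
  | n + 1 => T.obj (powObj X n) X

/-- The tensor power `f^{⊗ (n + 1)}`. -/
noncomputable def powMap {X Y : Db C} (f : X ⟶ Y) : ∀ n : ℕ, T.powObj X n ⟶ T.powObj Y n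
  | 0 => f
  | n + 1 => T.map (powMap f n) f

end DerivedTensor

/-- The unit of the bounded derived category. -/
noncomputable abbrev unit (C : Type u) [Category.{v} C] [Abelian C] [HasDerivedCategory.{w'} C]
    [MonoidalCategory C] : Db C := Qb.obj (single (𝟙_ C))

/-- The morphism `f` is tensor-nilpotent on `Z`: the morphism `f^{⊗ n} ⊗ id_Z` is zero for
some `n ≥ 1`. -/
def IsNilpotentOn {X Y : Db C} (f : X ⟶ Y) (Z : Db C) : Prop :=
  ∃ n : ℕ, T.map (T.powMap f n) (𝟙 Z) = 0

end Derived

end

end Pool.Agent.R709.DB
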