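import Pool.Agent.R709.DB.Tensor

/-!
# Tensor-vanishing of maps out of the unit
-/

open CategoryTheory Limits MonoidalCategory

namespace Pool.Agent.R709.DB

universe v u w w'

variable {C : Type u} [Category.{v} C] [Abelian C] [MonoidalCategory C] [MonoidalPreadditive C]
  [HasDerivedCategory.{w'} C]

omit [HasDerivedCategory.{w'} C] in
theorem tensorMap_zero {K K' L L' : Chb C} (g : L ⟶ L') :
    tensorMap (0 : K ⟶ K') g = 0 := by
  ext n
  apply hom_ext
  intro i j hij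
  rw [ι_tensorMap]
  have h0 : (0 : K ⟶ K').hom = 0 := rfl
  rw [h0]
  simp

omit [MonoidalCategory C] [MonoidalPreadditive C] in
/-- The morphisms of the bounded derived category from a projective object. -/
theorem exists_repb {P : C} [Projective P] {K : Chb C} (f : Qb.obj (single P) ⟶ Qb.obj K) :
    ∃ α : single P ⟶ K, Qb.map α = f := by
  obtain ⟨α, hα⟩ := exists_rep (P := P) f.hom
  exact ⟨ObjectProperty.homMk α, by ext; exact hα⟩

namespace DerivedTensor

variable (T : DerivedTensor C)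

theorem map_comp_comp {X X' X'' Y Y' Y'' : Db C} (f : X ⟶ X') (f' : X' ⟶ X'') (g : Y ⟶ Y')
    (g' : Y' ⟶ Y'') : T.map (f ≫ f') (g ≫ g') = T.map f g ≫ T.map f' g' := by
  simp [DerivedTensor.map]

theorem map_Qb_eq_zero {K K' L L' : Chb C} (f : K ⟶ K') (g : L ⟶ L')
    (h : DerivedCategory.Q.map (tensorMap f g) = 0) : T.map (Qb.map f) (Qb.map g) = 0 := by
  have h1 := T.natural f g
  rw [h, comp_zero] at h1
  ext
  rw [← cancel_mono (T.iso K' L').hom]
  exact h1.trans zero_comp.symm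

theorem Q_eq_zero_of_map_eq_zero {K K' L L' : Chb C} (f : K ⟶ K') (g : L ⟶ L')
    (h : T.map (Qb.map f) (Qb.map g) = 0) : DerivedCategory.Q.map (tensorMap f g) = 0 := by
  have h1 := T.natural f g
  have h2 : ((T.T.map (Qb.map f)).app (Qb.obj L) ≫ (T.T.obj (Qb.obj K')).map (Qb.map g)).hom = 0 := by
    exact congrArg InducedCategory.Hom.hom h
  rw [h2, zero_comp] at h1
  rw [← cancel_epi (T.iso K L).hom, ← h1, comp_zero]

/-- If `π : P ⟶ A` is an epimorphism and `P` and `A ⊗ P` are projective, then `π ⊗ id_P` is an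
epimorphism in the bounded derived category. -/
theorem epi_map {P A : C} (π : P ⟶ A) (hs : ∃ s : A ⊗ P ⟶ P ⊗ P, s ≫ (π ⊗ₘ 𝟙 P) = 𝟙 _) :
    ∃ t, t ≫ T.map (Qb.map (singleMap π)) (𝟙 (Qb.obj (single P))) = 𝟙 _ := by
  obtain ⟨s, hs⟩ := hs
  have h1 := T.natural (singleMap π) (singleMap (𝟙 P))
  have h2 : (𝟙 (Qb.obj (single P)) : Qb.obj (single P) ⟶ Qb.obj (single P)) =
      Qb.map (singleMap (𝟙 P)) := by
    have : singleMap (𝟙 P) = 𝟙 (single P) := by
      ext
      simp [singleMap]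
    rw [this, CategoryTheory.Functor.map_id]
  rw [h2]
  have h3 := singleTensorIso_naturality π (𝟙 P)
  have h4 : (singleTensorIso A P).inv ≫
      (HomologicalComplex.single C (ComplexShape.up ℤ) 0).map s ≫ (singleTensorIso P P).hom ≫
      tensorMap (singleMap π) (singleMap (𝟙 P)) = 𝟙 _ := by
    rw [h3, ← Category.assoc ((HomologicalComplex.single C (ComplexShape.up ℤ) 0).map s),
      ← Functor.map_comp, hs]
    simp
  refine ⟨ObjectProperty.homMk ((T.iso (single A) (single P)).hom ≫ DerivedCategory.Q.map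
    ((singleTensorIso A P).inv ≫ (HomologicalComplex.single C (ComplexShape.up ℤ) 0).map s ≫
      (singleTensorIso P P).hom) ≫ (T.iso (single P) (single P)).inv), ?_⟩
  ext
  change ((T.iso (single A) (single P)).hom ≫ DerivedCategory.Q.map _ ≫
    (T.iso (single P) (single P)).inv) ≫ _ = 𝟙 _
  rw [← cancel_mono (T.iso (single A) (single P)).hom, Category.assoc, Category.assoc,
    Category.assoc]
  erw [h1]
  rw [Iso.inv_hom_id_assoc, ← Functor.map_comp, Category.assoc, Category.assoc, h4,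
    CategoryTheory.Functor.map_id, Category.comp_id]
  exact (Category.id_comp _).symm

/-- If `π ≫ f` vanishes for an epimorphism `π : P ⟶ 𝟙` then `f` vanishes on `P`. -/
theorem map_eq_zero [RigidCategory C] {P : C} [Projective P] (π : P ⟶ 𝟙_ C) [Epi π] {K : Chb C}
    (f : unit C ⟶ Qb.obj K) (hf : Qb.map (singleMap π) ≫ f = 0) :
    T.map f (𝟙 (Qb.obj (single P))) = 0 := by
  have hproj : Projective (𝟙_ C ⊗ P) := Projective.of_iso (λ_ P).symm inferInstance
  have hepi : Epi (π ⊗ₘ 𝟙 P) := epi_tensorHom π (𝟙 P)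
  have hs : ∃ s : 𝟙_ C ⊗ P ⟶ P ⊗ P, s ≫ (π ⊗ₘ 𝟙 P) = 𝟙 _ :=
    ⟨Projective.factorThru (𝟙 _) (π ⊗ₘ 𝟙 P), Projective.factorThru_comp _ _⟩
  obtain ⟨t, ht⟩ := T.epi_map π hs
  have h1 : T.map (Qb.map (singleMap π) ≫ f) (𝟙 (Qb.obj (single P)) ≫ 𝟙 _) =
      T.map (Qb.map (singleMap π)) (𝟙 (Qb.obj (single P))) ≫ T.map f (𝟙 _) :=
    T.map_comp_comp _ _ _ _
  have h2 : (0 : Qb.obj (single P) ⟶ Qb.obj K) = Qb.map 0 := by
    ext
    exact (DerivedCategory.Q.map_zero _ _).symm
  have h3 : T.map (0 : Qb.obj (single P) ⟶ Qb.obj K) (𝟙 (Qb.obj (single P))) = 0 := by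
    have h4 : 𝟙 (Qb.obj (single P)) = Qb.map (𝟙 (single P)) :=
      (CategoryTheory.Functor.map_id _ _).symm
    rw [h2, h4]
    apply T.map_Qb_eq_zero
    rw [tensorMap_zero, Functor.map_zero]
  rw [hf, Category.comp_id, h3] at h1
  have h5 : t ≫ T.map (Qb.map (singleMap π)) (𝟙 (Qb.obj (single P))) ≫
      T.map f (𝟙 (Qb.obj (single P))) = 0 := by
    rw [← h1, comp_zero]
  rw [← Category.assoc, ht] at h5
  exact (Category.id_comp _).symm.trans h5

end DerivedTensor

omit [MonoidalPreadditive C] in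
/-- The dichotomy for a morphism out of the unit. -/
theorem exists_factor {P : C} [Projective P] (π : P ⟶ 𝟙_ C) [Epi π] {K : Chb C}
    (f : unit C ⟶ Qb.obj K) :
    ∃ (α : single P ⟶ K) (m : 𝟙_ C ⟶ K.obj.opcycles 0),
      Qb.map α = Qb.map (singleMap π) ≫ f ∧
      (HomologicalComplex.singleObjXSelf (ComplexShape.up ℤ) 0 P).inv ≫ α.hom.f 0 ≫
        K.obj.pOpcycles 0 = π ≫ m ∧
      (m = 0 → Qb.map (singleMap π) ≫ f = 0) := by
  obtain ⟨α, hα⟩ := exists_repb (P := P) (Qb.map (singleMap π) ≫ f)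
  have hker : kernel.ι π ≫ ((HomologicalComplex.singleObjXSelf (ComplexShape.up ℤ) 0 P).inv ≫
      α.hom.f 0 ≫ K.obj.pOpcycles 0) = 0 := by
    have h1 : Qb.map (singleMap (kernel.ι π) ≫ α) = 0 := by
      rw [Functor.map_comp, hα, ← Category.assoc, ← Functor.map_comp]
      have : singleMap (kernel.ι π) ≫ singleMap π = 0 := by
        ext
        simp [singleMap, ← Functor.map_comp]
      rw [this]
      have h2 : Qb.map (0 : single (kernel π) ⟶ single (𝟙_ C)) = 0 := by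
        ext
        exact DerivedCategory.Q.map_zero _ _
      rw [h2, zero_comp]
    have h3 : DerivedCategory.Q.map (singleMap (kernel.ι π) ≫ α).hom = 0 := by
      have h30 : (Qb.map (singleMap (kernel.ι π) ≫ α)).hom = 0 := by
        rw [h1]
        rfl
      exact h30
    have h4 := comp_eq_zero_of_Q_eq_zero (singleMap (kernel.ι π) ≫ α).hom h3
      (HomologicalComplex.singleObjXSelf (ComplexShape.up ℤ) 0 (kernel π)).inv
      (by simp) (K.obj.pOpcycles 0) (by simp)
    have h5 : (HomologicalComplex.singleObjXSelf (ComplexShape.up ℤ) 0 (kernel π)).inv ≫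
        ((HomologicalComplex.single C (ComplexShape.up ℤ) 0).map (kernel.ι π)).f 0 =
        kernel.ι π ≫ (HomologicalComplex.singleObjXSelf (ComplexShape.up ℤ) 0 P).inv := by
      rw [HomologicalComplex.single_map_f_self]
      simp
    have h6 : (singleMap (kernel.ι π) ≫ α).hom.f 0 =
        ((HomologicalComplex.single C (ComplexShape.up ℤ) 0).map (kernel.ι π)).f 0 ≫
          α.hom.f 0 := rfl
    rw [h6, Category.assoc, reassoc_of% h5] at h4
    exact h4
  refine ⟨α, Abelian.epiDesc π _ hker, hα, (Abelian.comp_epiDesc π _ hker).symm, ?_⟩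
  intro hm
  have h7 : (HomologicalComplex.singleObjXSelf (ComplexShape.up ℤ) 0 P).inv ≫ α.hom.f 0 ≫
      K.obj.pOpcycles 0 = 0 := by
    rw [← Abelian.comp_epiDesc π _ hker, hm, comp_zero]
  have h8 : α.hom.f 0 ≫ K.obj.pOpcycles 0 = 0 := by
    rw [← cancel_epi (HomologicalComplex.singleObjXSelf (ComplexShape.up ℤ) 0 P).inv, h7,
      comp_zero]
  have h9 := Q_eq_zero_of_projective α.hom h8
  rw [← hα]
  ext
  exact h9

omit [HasDerivedCategory.{w'} C] in
/-- The tensor product of two chain maps between the opcycles in degree zero. -/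
theorem inc_tensorMap_toOp {P P' : C} {K L : Chb C} (α : single P ⟶ K) (β : single P' ⟶ L) :
    inc P P' ≫ (tensorMap α β).f 0 ≫ toOp K L =
      ((HomologicalComplex.singleObjXSelf (ComplexShape.up ℤ) 0 P).inv ≫ α.hom.f 0 ≫
        K.obj.pOpcycles 0) ⊗ₘ
      ((HomologicalComplex.singleObjXSelf (ComplexShape.up ℤ) 0 P').inv ≫ β.hom.f 0 ≫
        L.obj.pOpcycles 0) := by
  rw [inc, Category.assoc, ι_tensorMap_assoc, ι_toOp, tensorHom_comp_tensorHom,
    tensorHom_comp_tensorHom]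

/-- The main statement for complexes. -/
theorem main_aux [RigidCategory C] (T : DerivedTensor C) [EnoughProjectives C]
    (hend : ∀ c : 𝟙_ C ⟶ 𝟙_ C, c ≠ 0 → IsIso c) (hne : 𝟙 (𝟙_ C) ≠ 0)
    (hart : ∀ X : C, IsArtinianObject X) {K L : Chb C} (f : unit C ⟶ Qb.obj K)
    (g : unit C ⟶ Qb.obj L) (hfg : T.map f g = 0) :
    T.map f (𝟙 (Qb.obj (single (Projective.over (𝟙_ C))))) = 0 ∨
      T.map g (𝟙 (Qb.obj (single (Projective.over (𝟙_ C))))) = 0 := by
  let π := Projective.π (𝟙_ C)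
  obtain ⟨α, m, hα, hαm, hm⟩ := exists_factor π f
  obtain ⟨β, m', hβ, hβm, hm'⟩ := exists_factor π g
  by_cases h1 : m = 0
  · exact Or.inl (T.map_eq_zero π f (hm h1))
  by_cases h2 : m' = 0
  · exact Or.inr (T.map_eq_zero π g (hm' h2))
  exfalso
  have hT : T.map (Qb.map α) (Qb.map β) = 0 := by
    rw [hα, hβ, T.map_comp_comp, hfg, comp_zero]
  have hQ := T.Q_eq_zero_of_map_eq_zero α β hT
  have h3 := comp_eq_zero_of_Q_eq_zero _ hQ (inc _ _) (inc_d _ _) (toOp K L) (d_toOp K L)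
  rw [inc_tensorMap_toOp, hαm, hβm, ← tensorHom_comp_tensorHom] at h3
  have hepi : Epi (π ⊗ₘ π) := epi_tensorHom π π
  have h4 : m ⊗ₘ m' = 0 := by
    rw [← cancel_epi (π ⊗ₘ π), h3, comp_zero]
  have hm1 := mono_of_ne_zero hend hart m h1
  have hm2 := mono_of_ne_zero hend hart m' h2
  have hmono : Mono (m ⊗ₘ m') := mono_tensorHom m m'
  have h5 : 𝟙 (𝟙_ C ⊗ 𝟙_ C) = 0 := by
    rw [← cancel_mono (m ⊗ₘ m'), h4, comp_zero, comp_zero]
  apply hne
  have h6 : (λ_ (𝟙_ C)).inv ≫ 𝟙 (𝟙_ C ⊗ 𝟙_ C) ≫ (λ_ (𝟙_ C)).hom = 0 := by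
    rw [h5, zero_comp, comp_zero]
  simpa using h6

/-- The main theorem. -/
theorem main [RigidCategory C] (k : Type w) [Field k] [Linear k C]
    (hC : IsFiniteTensorCategory k C) (T : DerivedTensor C) {X Y : Db C} (f : unit C ⟶ X)
    (g : unit C ⟶ Y) (hfg : T.map f g = 0) :
    ∃ Z : Db C, ¬ IsZero Z ∧ (IsNilpotentOn T f Z ∨ IsNilpotentOn T g Z) := by
  have hep := hC.enoughProjectives
  have hne : 𝟙 (𝟙_ C) ≠ 0 := by
    intro h
    have h1 : (1 : k) = 0 := hC.end_unit.1 (by simp [h])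
    exact one_ne_zero h1
  have hend : ∀ c : 𝟙_ C ⟶ 𝟙_ C, c ≠ 0 → IsIso c := by
    intro c hc
    obtain ⟨a, ha⟩ := hC.end_unit.2 c
    have ha0 : a ≠ 0 := by
      rintro rfl
      apply hc
      rw [← ha]
      simp
    refine ⟨a⁻¹ • 𝟙 _, ?_, ?_⟩
    · rw [← ha]
      simp [smul_smul, ha0]
    · rw [← ha]
      simp [smul_smul, ha0]
  obtain ⟨K, ⟨e⟩⟩ := X.property
  obtain ⟨L, ⟨e'⟩⟩ := Y.property
  let E : X ≅ Qb.obj K := (IsDb C).fullyFaithfulι.preimageIso e
  let E' : Y ≅ Qb.obj L := (IsDb C).fullyFaithfulι.preimageIso e'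
  have h1 : T.map (f ≫ E.hom) (g ≫ E'.hom) = 0 := by
    rw [T.map_comp_comp, hfg, zero_comp]
  have back : ∀ {A B : Db C} (φ : unit C ⟶ A) (e : A ≅ B) (Z : Db C),
      T.map (φ ≫ e.hom) (𝟙 Z) = 0 → IsNilpotentOn T φ Z := by
    intro A B φ e Z h
    refine ⟨0, ?_⟩
    have h2 : T.map ((φ ≫ e.hom) ≫ e.inv) (𝟙 Z ≫ 𝟙 Z) = 0 := by
      rw [T.map_comp_comp, h, zero_comp]
    rw [Category.assoc, Iso.hom_inv_id, Category.comp_id, Category.comp_id] at h2
    exact h2
  refine ⟨Qb.obj (single (Projective.over (𝟙_ C))), ?_, ?_⟩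
  · intro hz
    have hz0 := (IsZero.iff_id_eq_zero _).1 hz
    have h3 : DerivedCategory.Q.map (𝟙 (single (Projective.over (𝟙_ C))).obj) = 0 := by
      rw [CategoryTheory.Functor.map_id]
      exact congrArg (fun φ : Qb.obj (single (Projective.over (𝟙_ C))) ⟶
        Qb.obj (single (Projective.over (𝟙_ C))) => φ.hom) hz0
    have h4 := comp_eq_zero_of_Q_eq_zero _ h3
      (HomologicalComplex.singleObjXSelf (ComplexShape.up ℤ) 0 (Projective.over (𝟙_ C))).inv
      (by simp)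
      (HomologicalComplex.singleObjXSelf (ComplexShape.up ℤ) 0 (Projective.over (𝟙_ C))).hom
      (by simp)
    have h5 : 𝟙 (Projective.over (𝟙_ C)) = 0 := by simpa using h4
    apply hne
    rw [← cancel_epi (Projective.π (𝟙_ C)), comp_zero, Category.comp_id,
      ← Category.id_comp (Projective.π (𝟙_ C)), h5, zero_comp]
  · rcases main_aux T hend hne hC.artinian _ _ h1 with h | h
    · exact Or.inl (back f E _ h)
    · exact Or.inr (back g E' _ h)

end Pool.Agent.R709.DB
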