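import Pool.Agent.R709.DB.Chain

/-!
# The tensor product of bounded complexes in degree zero
-/

open CategoryTheory Limits MonoidalCategory

namespace Pool.Agent.R709.DB

universe v u w w'

variable {C : Type u} [Category.{v} C] [Abelian C] [MonoidalCategory C] [MonoidalPreadditive C]

/-- The inclusion of a summand of the tensor product. -/
noncomputable def ι (K L : Chb C) (i j n : ℤ) (h : i + j = n) :
    K.obj.X i ⊗ L.obj.X j ⟶ (tensorObj K L).X n :=
  HomologicalComplex.ιTensorObj K.obj L.obj i j n h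

theorem hom_ext {K L : Chb C} {n : ℤ} {A : C} {f g : (tensorObj K L).X n ⟶ A}
    (h : ∀ (i j : ℤ) (hij : i + j = n), ι K L i j n hij ≫ f = ι K L i j n hij ≫ g) : f = g :=
  HomologicalComplex.mapBifunctor.hom_ext h

/-- Morphisms out of the tensor product. -/
noncomputable def desc {K L : Chb C} {n : ℤ} {A : C}
    (f : ∀ (i j : ℤ) (_ : i + j = n), K.obj.X i ⊗ L.obj.X j ⟶ A) : (tensorObj K L).X n ⟶ A :=
  HomologicalComplex.mapBifunctorDesc f

@[reassoc]
theorem ι_desc {K L : Chb C} {n : ℤ} {A : C}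
    (f : ∀ (i j : ℤ) (_ : i + j = n), K.obj.X i ⊗ L.obj.X j ⟶ A) (i j : ℤ) (h : i + j = n) :
    ι K L i j n h ≫ desc f = f i j h :=
  HomologicalComplex.ι_mapBifunctorDesc (K₁ := K.obj) (K₂ := L.obj) (F := curriedTensor C)
    (c := ComplexShape.up ℤ) f i j h

@[reassoc]
theorem ι_tensorMap {K K' L L' : Chb C} (f : K ⟶ K') (g : L ⟶ L') (i j n : ℤ) (h : i + j = n) :
    ι K L i j n h ≫ (tensorMap f g).f n = (f.hom.f i ⊗ₘ g.hom.f j) ≫ ι K' L' i j n h := by
  have := HomologicalComplex.ι_mapBifunctorMap f.hom g.hom (curriedTensor C)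
    (ComplexShape.up ℤ) i j n h
  refine this.trans ?_
  simp only [curriedTensor_obj_obj, curriedTensor_map_app, curriedTensor_obj_map]
  rw [← Category.assoc, MonoidalCategory.tensorHom_def]
  rfl

/-- The differential of the tensor product on a summand. -/
theorem ι_d (K L : Chb C) (i j n : ℤ) (h : i + j = n) :
    ι K L i j n h ≫ (tensorObj K L).d n (n + 1) =
      (K.obj.d i (i + 1) ▷ L.obj.X j) ≫ ι K L (i + 1) j (n + 1) (by omega) +
      (i.negOnePow) • ((K.obj.X i ◁ L.obj.d j (j + 1)) ≫ ι K L i (j + 1) (n + 1) (by omega)) := by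
  unfold ι tensorObj
  rw [HomologicalComplex.mapBifunctor.d_eq, Preadditive.comp_add,
    HomologicalComplex.mapBifunctor.ι_D₁, HomologicalComplex.mapBifunctor.ι_D₂]
  rw [HomologicalComplex.mapBifunctor.d₁_eq _ _ _ _ (show (ComplexShape.up ℤ).Rel i (i + 1) by simp)
    _ _ (show i + 1 + j = n + 1 by omega)]
  rw [HomologicalComplex.mapBifunctor.d₂_eq _ _ _ _ _ (show (ComplexShape.up ℤ).Rel j (j + 1) by simp)
    _ (show i + (j + 1) = n + 1 by omega)]
  congr 1
  simp

/-! ### from the tensor product to the tensor product of the opcycles -/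

/-- The map from the tensor product to the tensor product of the opcycles in degree zero. -/
noncomputable def toOp (K L : Chb C) :
    (tensorObj K L).X 0 ⟶ K.obj.opcycles 0 ⊗ L.obj.opcycles 0 :=
  desc fun i j hij => if hi : i = 0 then
    ((K.obj.XIsoOfEq hi).hom ≫ K.obj.pOpcycles 0) ⊗ₘ
      ((L.obj.XIsoOfEq (show j = 0 by omega)).hom ≫ L.obj.pOpcycles 0) else 0

@[reassoc]
theorem ι_toOp (K L : Chb C) :
    ι K L 0 0 0 (by simp) ≫ toOp K L = K.obj.pOpcycles 0 ⊗ₘ L.obj.pOpcycles 0 := by
  rw [toOp, ι_desc, dif_pos rfl]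
  simp

theorem left_toOp (K L : Chb C) (i j : ℤ) (h : i + 1 + j = 0) :
    (K.obj.d i (i + 1) ▷ L.obj.X j) ≫ ι K L (i + 1) j 0 h ≫ toOp K L = 0 := by
  rw [toOp, ι_desc]
  by_cases hi : i + 1 = 0
  · rw [dif_pos hi, ← tensorHom_id, tensorHom_comp_tensorHom]
    have h1 : K.obj.d i (i + 1) ≫ (K.obj.XIsoOfEq hi).hom ≫ K.obj.pOpcycles 0 = 0 := by simp
    rw [h1, MonoidalPreadditive.zero_tensor]
  · rw [dif_neg hi, comp_zero]

theorem right_toOp (K L : Chb C) (i j : ℤ) (h : i + (j + 1) = 0) :
    (K.obj.X i ◁ L.obj.d j (j + 1)) ≫ ι K L i (j + 1) 0 h ≫ toOp K L = 0 := by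
  rw [toOp, ι_desc]
  by_cases hi : i = 0
  · rw [dif_pos hi, ← id_tensorHom, tensorHom_comp_tensorHom]
    have h1 : L.obj.d j (j + 1) ≫ (L.obj.XIsoOfEq (show j + 1 = 0 by omega)).hom ≫
        L.obj.pOpcycles 0 = 0 := by simp
    rw [h1, MonoidalPreadditive.tensor_zero]
  · rw [dif_neg hi, comp_zero]

theorem d_toOp (K L : Chb C) : (tensorObj K L).d (-1) 0 ≫ toOp K L = 0 := by
  apply hom_ext
  intro i j hij
  rw [comp_zero]
  have h1 := ι_d K L i j (-1) hij
  change ι K L i j (-1) hij ≫ (tensorObj K L).d (-1) 0 ≫ toOp K L = 0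
  have h2 : ι K L i j (-1) hij ≫ (tensorObj K L).d (-1) 0 =
      (K.obj.d i (i + 1) ▷ L.obj.X j) ≫ ι K L (i + 1) j 0 (by omega) +
      (i.negOnePow) • ((K.obj.X i ◁ L.obj.d j (j + 1)) ≫ ι K L i (j + 1) 0 (by omega)) := h1
  rw [← Category.assoc, h2, Preadditive.add_comp, Category.assoc, Linear.units_smul_comp,
    Category.assoc, left_toOp, right_toOp, smul_zero, add_zero]

/-! ### the tensor product of two objects in degree zero -/

/-- The inclusion of `A ⊗ B` into the tensor product of complexes. -/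
noncomputable def inc (A B : C) : A ⊗ B ⟶ (tensorObj (single A) (single B)).X 0 :=
  ((HomologicalComplex.singleObjXSelf (ComplexShape.up ℤ) 0 A).inv ⊗ₘ
    (HomologicalComplex.singleObjXSelf (ComplexShape.up ℤ) 0 B).inv) ≫
    ι (single A) (single B) 0 0 0 (by simp)

theorem isZero_X (A B : C) (n : ℤ) (hn : n ≠ 0) :
    IsZero ((tensorObj (single A) (single B)).X n) := by
  rw [IsZero.iff_id_eq_zero]
  apply hom_ext
  intro i j hij
  have hz : IsZero ((single A).obj.X i ⊗ (single B).obj.X j) := by
    by_cases hi : i = 0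
    · have hj : j ≠ 0 := by omega
      have h1 := HomologicalComplex.isZero_single_obj_X (ComplexShape.up ℤ) 0 B j hj
      rw [IsZero.iff_id_eq_zero] at h1 ⊢
      change 𝟙 ((single B).obj.X j) = 0 at h1
      rw [← whiskerLeft_id, h1, MonoidalPreadditive.whiskerLeft_zero]
    · exact isZero_tensor_left _
        (HomologicalComplex.isZero_single_obj_X (ComplexShape.up ℤ) 0 A i hi)
  exact hz.eq_of_src _ _

theorem inc_d (A B : C) : inc A B ≫ (tensorObj (single A) (single B)).d 0 1 = 0 :=
  (isZero_X A B 1 (by simp)).eq_of_tgt _ _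

/-- The retraction. -/
noncomputable def ret (A B : C) : (tensorObj (single A) (single B)).X 0 ⟶ A ⊗ B :=
  desc fun i j hij => if hi : i = 0 then
    (((single A).obj.XIsoOfEq hi).hom ≫
      (HomologicalComplex.singleObjXSelf (ComplexShape.up ℤ) 0 A).hom) ⊗ₘ
      (((single B).obj.XIsoOfEq (show j = 0 by omega)).hom ≫
        (HomologicalComplex.singleObjXSelf (ComplexShape.up ℤ) 0 B).hom) else 0

theorem inc_ret (A B : C) : inc A B ≫ ret A B = 𝟙 _ := by
  rw [inc, ret, Category.assoc, ι_desc, dif_pos rfl, tensorHom_comp_tensorHom]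
  simp

theorem ret_inc (A B : C) : ret A B ≫ inc A B = 𝟙 _ := by
  apply hom_ext
  intro i j hij
  by_cases hi : i = 0
  · subst hi
    obtain rfl : j = 0 := by omega
    rw [ret, ← Category.assoc, ι_desc, dif_pos rfl, inc, ← Category.assoc,
      tensorHom_comp_tensorHom]
    simp
  · have hz := isZero_tensor_left ((single B).obj.X j)
        (HomologicalComplex.isZero_single_obj_X (ComplexShape.up ℤ) 0 A i hi)
    exact hz.eq_of_src _ _

/-- The comparison between `A ⊗ B` and the tensor product of complexes. -/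
noncomputable def singleTensorIso (A B : C) :
    (HomologicalComplex.single C (ComplexShape.up ℤ) 0).obj (A ⊗ B) ≅
      tensorObj (single A) (single B) where
  hom := HomologicalComplex.mkHomFromSingle (inc A B) (fun j hj => by
    obtain rfl : 0 + 1 = j := hj
    exact inc_d A B)
  inv := HomologicalComplex.mkHomToSingle (ret A B) (fun i hi => by
    obtain rfl : i = -1 := by
      have : i + 1 = 0 := hi
      omega
    exact (isZero_X A B (-1) (by simp)).eq_of_src _ _)
  hom_inv_id := by
    apply HomologicalComplex.from_single_hom_ext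
    simp only [HomologicalComplex.comp_f, HomologicalComplex.mkHomFromSingle_f,
      HomologicalComplex.mkHomToSingle_f, Category.assoc, HomologicalComplex.id_f]
    rw [← Category.assoc (inc A B), inc_ret, Category.id_comp, Iso.hom_inv_id]
  inv_hom_id := by
    ext n
    by_cases hn : n = 0
    · subst hn
      simp [ret_inc]
    · exact (isZero_X A B n hn).eq_of_src _ _

/-- The morphism between complexes concentrated in degree zero. -/
noncomputable def singleMap {A B : C} (f : A ⟶ B) : single A ⟶ single B :=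
  ObjectProperty.homMk ((HomologicalComplex.single C (ComplexShape.up ℤ) 0).map f)

@[reassoc]
theorem singleTensorIso_naturality {A A' B B' : C} (f : A ⟶ A') (g : B ⟶ B') :
    (singleTensorIso A B).hom ≫ tensorMap (singleMap f) (singleMap g) =
      (HomologicalComplex.single C (ComplexShape.up ℤ) 0).map (f ⊗ₘ g) ≫
        (singleTensorIso A' B').hom := by
  apply HomologicalComplex.from_single_hom_ext
  simp only [HomologicalComplex.comp_f, singleTensorIso,
    HomologicalComplex.mkHomFromSingle_f, Category.assoc]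
  rw [HomologicalComplex.single_map_f_self]
  simp only [Category.assoc, Iso.inv_hom_id_assoc]
  have key : ((HomologicalComplex.singleObjXSelf (ComplexShape.up ℤ) 0 A).inv ⊗ₘ
      (HomologicalComplex.singleObjXSelf (ComplexShape.up ℤ) 0 B).inv) ≫
      ((singleMap f).hom.f 0 ⊗ₘ (singleMap g).hom.f 0) =
      (f ⊗ₘ g) ≫ ((HomologicalComplex.singleObjXSelf (ComplexShape.up ℤ) 0 A').inv ⊗ₘ
      (HomologicalComplex.singleObjXSelf (ComplexShape.up ℤ) 0 B').inv) := by
    rw [tensorHom_comp_tensorHom, tensorHom_comp_tensorHom]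
    change (_ ≫ ((HomologicalComplex.single C (ComplexShape.up ℤ) 0).map f).f 0) ⊗ₘ
      (_ ≫ ((HomologicalComplex.single C (ComplexShape.up ℤ) 0).map g).f 0) = _
    rw [HomologicalComplex.single_map_f_self, HomologicalComplex.single_map_f_self]
    simp
  rw [inc, inc, Category.assoc, ι_tensorMap, reassoc_of% key]

end Pool.Agent.R709.DB
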